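import Pool.Agent.W937.FG.Stm

/-! # Project FG: Thompson construction -/

set_option autoImplicit false

namespace Pool.Agent.W85.FG

open Pool.Agent.W937.FG

section
variable {T K Q Q' : Type} [DecidableEq K] {e : Bool}

lemma ptrans {δ : Set (Q × Op T K × Q)} {q q' q'' : Q} {s s' s'' : K → ℕ} {w x : List T}
    (h : Path e δ q s w q' s') (h2 : Path e δ q' s' x q'' s'') : Path e δ q s (w ++ x) q'' s'' := by
  induction h with
  | refl q s => exact h2
  | step hδ h1 _ ih =>
    rw [List.append_assoc]
    exact Path.step hδ h1 (ih h2)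

lemma pmap {δ : Set (Q × Op T K × Q)} {δ' : Set (Q' × Op T K × Q')} (f : Q → Q')
    (hf : ∀ a o b, (a, o, b) ∈ δ → (f a, o, f b) ∈ δ') {q q' : Q} {s s' : K → ℕ} {w : List T}
    (h : Path e δ q s w q' s') : Path e δ' (f q) s w (f q') s' := by
  induction h with
  | refl q s => exact Pool.Agent.W937.FG.Path.refl _ _
  | step hδ h1 _ ih => exact Path.step (hf _ _ _ hδ) h1 ih

lemma pnop {δ : Set (Q × Op T K × Q)} {q q' : Q} (h : (q, Op.nop, q') ∈ δ) (s : K → ℕ) :
    Path e δ q s [] q' s := by
  have := Path.step (e := e) (w := []) (x := []) h (show ExecO e Op.nop s [] s from ⟨rfl, rfl⟩)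
    (Pool.Agent.W937.FG.Path.refl q' s)
  simpa using this

end

/-- edges of the sequential composition -/
def dseq {T K Q Q' : Type} (δ : Set (Q × Op T K × Q)) (δ' : Set (Q' × Op T K × Q')) (qf : Q) (q0 : Q') :
    Set ((Q ⊕ Q') × Op T K × (Q ⊕ Q')) :=
  (fun t : Q × Op T K × Q => (Sum.inl t.1, t.2.1, Sum.inl t.2.2)) '' δ ∪
  ((fun t : Q' × Op T K × Q' => (Sum.inr t.1, t.2.1, Sum.inr t.2.2)) '' δ' ∪
    {(Sum.inl qf, Op.nop, Sum.inr q0)})

/-- edges of the alternative -/
def dalt {T K Q Q' : Type} (δ : Set (Q × Op T K × Q)) (δ' : Set (Q' × Op T K × Q')) (q0 qf : Q)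
    (q0' qf' : Q') : Set ((Bool ⊕ (Q ⊕ Q')) × Op T K × (Bool ⊕ (Q ⊕ Q'))) :=
  (fun t : Q × Op T K × Q => (Sum.inr (Sum.inl t.1), t.2.1, Sum.inr (Sum.inl t.2.2))) '' δ ∪
  ((fun t : Q' × Op T K × Q' => (Sum.inr (Sum.inr t.1), t.2.1, Sum.inr (Sum.inr t.2.2))) '' δ' ∪
    {(Sum.inl false, Op.nop, Sum.inr (Sum.inl q0)), (Sum.inl false, Op.nop, Sum.inr (Sum.inr q0')),
     (Sum.inr (Sum.inl qf), Op.nop, Sum.inl true), (Sum.inr (Sum.inr qf'), Op.nop, Sum.inl true)})

/-- edges of the iteration -/
def dstar {T K Q : Type} (δ : Set (Q × Op T K × Q)) (q0 qf : Q) :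
    Set (Option Q × Op T K × Option Q) :=
  (fun t : Q × Op T K × Q => (some t.1, t.2.1, some t.2.2)) '' δ ∪
    {(none, Op.nop, some q0), (some qf, Op.nop, none)}

theorem main : Pool.Agent.W937.FG.PropG1 := by
  intro T K _ p
  induction p with
  | op o =>
    refine ⟨Bool, inferInstance, false, true, {(false, o, true)}, Set.finite_singleton _, ?_⟩
    intro e s w s'
    constructor
    · intro h
      cases h with
      | op h =>
        have := Path.step (e := e) (δ := {(false, o, true)}) rfl h (Pool.Agent.W937.FG.Path.refl true s')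
        simpa using this
    · intro h
      cases h with
      | step hδ h1 h2 =>
        cases hδ
        cases h2 with
        | refl _ _ => rw [List.append_nil]; exact Exec.op h1
        | step hδ' _ _ => cases hδ'
  | seq p q ihp ihq =>
    obtain ⟨Qp, _, q0, qf, δ, hδ, hp⟩ := ihp
    obtain ⟨Qr, _, q0', qf', δ', hδ', hq⟩ := ihq
    refine ⟨Qp ⊕ Qr, inferInstance, Sum.inl q0, Sum.inr qf', dseq δ δ' qf q0',
      (hδ.image _).union ((hδ'.image _).union (Set.finite_singleton _)), ?_⟩
    intro e s w s'
    constructor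
    · intro h
      cases h with
      | @seq _ _ _ t _ w x h1 h2 =>
        have k1 : Path e (dseq δ δ' qf q0') (Sum.inl q0) s w (Sum.inl qf) t :=
          pmap Sum.inl (fun a o b h => Or.inl ⟨(a, o, b), h, rfl⟩) ((hp e _ _ _).1 h1)
        have k2 : Path e (dseq δ δ' qf q0') (Sum.inr q0') t x (Sum.inr qf') s' :=
          pmap Sum.inr (fun a o b h => Or.inr (Or.inl ⟨(a, o, b), h, rfl⟩)) ((hq e _ _ _).1 h2)
        have k3 : Path e (dseq δ δ' qf q0') (Sum.inl qf) t [] (Sum.inr q0') t :=
          pnop (Or.inr (Or.inr rfl)) t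
        exact ptrans k1 (ptrans k3 k2)
    · have key : ∀ {x y : Qp ⊕ Qr} {s s' : K → ℕ} {w : List T},
          Path e (dseq δ δ' qf q0') x s w y s' → y = Sum.inr qf' →
          (∀ b, x = Sum.inr b → Path e δ' b s w qf' s') ∧
          (∀ a, x = Sum.inl a → ∃ w1 w2 t, w = w1 ++ w2 ∧ Path e δ a s w1 qf t ∧
            Path e δ' q0' t w2 qf' s') := by
        intro x y s s' w h
        induction h with
        | refl q s =>
          intro hy
          refine ⟨fun b hb => ?_, fun a ha => ?_⟩
          · rw [hb] at hy
            rw [Sum.inr.inj hy]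
            exact Pool.Agent.W937.FG.Path.refl _ _
          · rw [ha] at hy
            cases hy
        | @step q q' q'' o s s' s'' w x hd h1 _ ih =>
          intro hy
          obtain ⟨i1, i2⟩ := ih hy
          rcases hd with ⟨⟨a, o', b⟩, hm, he⟩ | ⟨⟨a, o', b⟩, hm, he⟩ | he
          · simp only [Prod.mk.injEq] at he
            obtain ⟨rfl, rfl, rfl⟩ := he
            refine ⟨fun c hc => (by cases hc), fun c hc => ?_⟩
            obtain rfl := Sum.inl.inj hc
            obtain ⟨w1, w2, t, rfl, k1, k2⟩ := i2 b rfl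
            exact ⟨w ++ w1, w2, t, (List.append_assoc _ _ _).symm, Path.step hm h1 k1, k2⟩
          · simp only [Prod.mk.injEq] at he
            obtain ⟨rfl, rfl, rfl⟩ := he
            refine ⟨fun c hc => ?_, fun c hc => (by cases hc)⟩
            obtain rfl := Sum.inr.inj hc
            exact Path.step hm h1 (i1 b rfl)
          · have he' : (q, o, q') = (Sum.inl qf, Op.nop, Sum.inr q0') := he
            simp only [Prod.mk.injEq] at he'
            obtain ⟨rfl, rfl, rfl⟩ := he'
            obtain ⟨rfl, rfl⟩ := h1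
            refine ⟨fun c hc => (by cases hc), fun c hc => ?_⟩
            obtain rfl := Sum.inl.inj hc
            exact ⟨[], x, s', rfl, Pool.Agent.W937.FG.Path.refl _ _, i1 q0' rfl⟩
      intro h
      obtain ⟨w1, w2, t, rfl, k1, k2⟩ := (key h rfl).2 q0 rfl
      exact Exec.seq ((hp e _ _ _).2 k1) ((hq e _ _ _).2 k2)
  | alt p q ihp ihq =>
    obtain ⟨Qp, _, q0, qf, δ, hδ, hp⟩ := ihp
    obtain ⟨Qr, _, q0', qf', δ', hδ', hq⟩ := ihq
    refine ⟨Bool ⊕ (Qp ⊕ Qr), inferInstance, Sum.inl false, Sum.inl true, dalt δ δ' q0 qf q0' qf',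
      (hδ.image _).union ((hδ'.image _).union (Set.toFinite _)), ?_⟩
    intro e s w s'
    constructor
    · intro h
      cases h with
      | altl h1 =>
        have k1 : Path e (dalt δ δ' q0 qf q0' qf') (Sum.inr (Sum.inl q0)) s w (Sum.inr (Sum.inl qf)) s' :=
          pmap (fun a => Sum.inr (Sum.inl a)) (fun a o b h => Or.inl ⟨(a, o, b), h, rfl⟩)
            ((hp e _ _ _).1 h1)
        have k2 : Path e (dalt δ δ' q0 qf q0' qf') (Sum.inl false) s [] (Sum.inr (Sum.inl q0)) s :=
          pnop (Or.inr (Or.inr (by simp))) s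
        have k3 : Path e (dalt δ δ' q0 qf q0' qf') (Sum.inr (Sum.inl qf)) s' [] (Sum.inl true) s' :=
          pnop (Or.inr (Or.inr (by simp))) s'
        have := ptrans k2 (ptrans k1 k3)
        simpa using this
      | altr h1 =>
        have k1 : Path e (dalt δ δ' q0 qf q0' qf') (Sum.inr (Sum.inr q0')) s w (Sum.inr (Sum.inr qf')) s' :=
          pmap (fun a => Sum.inr (Sum.inr a)) (fun a o b h => Or.inr (Or.inl ⟨(a, o, b), h, rfl⟩))
            ((hq e _ _ _).1 h1)
        have k2 : Path e (dalt δ δ' q0 qf q0' qf') (Sum.inl false) s [] (Sum.inr (Sum.inr q0')) s :=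
          pnop (Or.inr (Or.inr (by simp))) s
        have k3 : Path e (dalt δ δ' q0 qf q0' qf') (Sum.inr (Sum.inr qf')) s' [] (Sum.inl true) s' :=
          pnop (Or.inr (Or.inr (by simp))) s'
        have := ptrans k2 (ptrans k1 k3)
        simpa using this
    · have key : ∀ {x y : Bool ⊕ (Qp ⊕ Qr)} {s s' : K → ℕ} {w : List T},
          Path e (dalt δ δ' q0 qf q0' qf') x s w y s' → y = Sum.inl true →
          (x = Sum.inl true → w = [] ∧ s' = s) ∧
          (∀ a, x = Sum.inr (Sum.inl a) → Path e δ a s w qf s') ∧
          (∀ b, x = Sum.inr (Sum.inr b) → Path e δ' b s w qf' s') ∧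
          (x = Sum.inl false → Path e δ q0 s w qf s' ∨ Path e δ' q0' s w qf' s') := by
        intro x y s s' w h
        induction h with
        | refl q s =>
          intro hy
          subst hy
          exact ⟨fun _ => ⟨rfl, rfl⟩, fun a ha => (by cases ha), fun b hb => (by cases hb),
            fun h => (by cases h)⟩
        | @step q q' q'' o s s' s'' w x hd h1 _ ih =>
          intro hy
          obtain ⟨i1, i2, i3, i4⟩ := ih hy
          rcases hd with ⟨⟨a, o', b⟩, hm, he⟩ | ⟨⟨a, o', b⟩, hm, he⟩ | he
          · simp only [Prod.mk.injEq] at he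
            obtain ⟨rfl, rfl, rfl⟩ := he
            refine ⟨fun h => (by cases h), fun c hc => ?_, fun c hc => (by cases hc),
              fun h => (by cases h)⟩
            cases hc
            exact Path.step hm h1 (i2 b rfl)
          · simp only [Prod.mk.injEq] at he
            obtain ⟨rfl, rfl, rfl⟩ := he
            refine ⟨fun h => (by cases h), fun c hc => (by cases hc), fun c hc => ?_,
              fun h => (by cases h)⟩
            cases hc
            exact Path.step hm h1 (i3 b rfl)
          · simp only [Set.mem_insert_iff, Set.mem_singleton_iff, Prod.mk.injEq] at he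
            rcases he with ⟨rfl, rfl, rfl⟩ | ⟨rfl, rfl, rfl⟩ | ⟨rfl, rfl, rfl⟩ | ⟨rfl, rfl, rfl⟩
            · obtain ⟨rfl, rfl⟩ := h1
              exact ⟨fun h => (by cases h), fun c hc => (by cases hc), fun c hc => (by cases hc),
                fun _ => Or.inl (i2 _ rfl)⟩
            · obtain ⟨rfl, rfl⟩ := h1
              exact ⟨fun h => (by cases h), fun c hc => (by cases hc), fun c hc => (by cases hc),
                fun _ => Or.inr (i3 _ rfl)⟩
            · obtain ⟨rfl, rfl⟩ := h1
              obtain ⟨rfl, rfl⟩ := i1 rfl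
              refine ⟨fun h => (by cases h), fun c hc => ?_, fun c hc => (by cases hc),
                fun h => (by cases h)⟩
              cases hc
              exact Pool.Agent.W937.FG.Path.refl _ _
            · obtain ⟨rfl, rfl⟩ := h1
              obtain ⟨rfl, rfl⟩ := i1 rfl
              refine ⟨fun h => (by cases h), fun c hc => (by cases hc), fun c hc => ?_,
                fun h => (by cases h)⟩
              cases hc
              exact Pool.Agent.W937.FG.Path.refl _ _
      intro h
      rcases (key h rfl).2.2.2 rfl with k | k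
      · exact Exec.altl ((hp e _ _ _).2 k)
      · exact Exec.altr ((hq e _ _ _).2 k)
  | star p ihp =>
    obtain ⟨Qp, _, q0, qf, δ, hδ, hp⟩ := ihp
    refine ⟨Option Qp, inferInstance, none, none, dstar δ q0 qf,
      (hδ.image _).union (Set.toFinite _), ?_⟩
    intro e s w s'
    constructor
    · have key : ∀ {r : Prog T K} {s s' : K → ℕ} {w : List T}, Exec e r s w s' → r = Prog.star p →
          Path e (dstar δ q0 qf) none s w none s' := by
        intro r s s' w h
        induction h with
        | op h => intro hr; cases hr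
        | seq _ _ _ _ => intro hr; cases hr
        | altl _ _ => intro hr; cases hr
        | altr _ _ => intro hr; cases hr
        | star_nil => intro _; exact Pool.Agent.W937.FG.Path.refl _ _
        | @star_cons p' s t u w x h1 h2 _ ih2 =>
          intro hr
          have hpp := Prog.star.inj hr
          subst hpp
          have k0 := ih2 rfl
          have k1 : Path e (dstar δ q0 qf) (some q0) s w (some qf) t :=
            pmap some (fun a o b h => Or.inl ⟨(a, o, b), h, rfl⟩) ((hp e _ _ _).1 h1)
          have k2 : Path e (dstar δ q0 qf) none s [] (some q0) s :=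
            pnop (Or.inr (by simp)) s
          have k3 : Path e (dstar δ q0 qf) (some qf) t [] none t :=
            pnop (Or.inr (by simp)) t
          have := ptrans k2 (ptrans k1 (ptrans k3 k0))
          simpa using this
      intro h
      exact key h rfl
    · have key : ∀ {x y : Option Qp} {s s' : K → ℕ} {w : List T},
          Path e (dstar δ q0 qf) x s w y s' → y = none →
          (x = none → Exec e (Prog.star p) s w s') ∧
          (∀ a, x = some a → ∃ w1 w2 t, w = w1 ++ w2 ∧ Path e δ a s w1 qf t ∧
            Exec e (Prog.star p) t w2 s') := by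
        intro x y s s' w h
        induction h with
        | refl q s =>
          intro hy
          subst hy
          exact ⟨fun _ => Exec.star_nil, fun a ha => (by cases ha)⟩
        | @step q q' q'' o s s' s'' w x hd h1 _ ih =>
          intro hy
          obtain ⟨i1, i2⟩ := ih hy
          rcases hd with ⟨⟨a, o', b⟩, hm, he⟩ | he
          · simp only [Prod.mk.injEq] at he
            obtain ⟨rfl, rfl, rfl⟩ := he
            refine ⟨fun h => (by cases h), fun c hc => ?_⟩
            cases hc
            obtain ⟨w1, w2, t, rfl, k1, k2⟩ := i2 b rfl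
            exact ⟨w ++ w1, w2, t, (List.append_assoc _ _ _).symm, Path.step hm h1 k1, k2⟩
          · simp only [Set.mem_insert_iff, Set.mem_singleton_iff, Prod.mk.injEq] at he
            rcases he with ⟨rfl, rfl, rfl⟩ | ⟨rfl, rfl, rfl⟩
            · obtain ⟨rfl, rfl⟩ := h1
              refine ⟨fun _ => ?_, fun c hc => (by cases hc)⟩
              obtain ⟨w1, w2, t, rfl, k1, k2⟩ := i2 _ rfl
              rw [List.nil_append]
              exact Exec.star_cons ((hp e _ _ _).2 k1) k2
            · obtain ⟨rfl, rfl⟩ := h1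
              refine ⟨fun h => (by cases h), fun c hc => ?_⟩
              cases hc
              exact ⟨[], x, s', rfl, Pool.Agent.W937.FG.Path.refl _ _, i1 rfl⟩
      intro h
      exact (key h rfl).1 rfl

end Pool.Agent.W85.FG
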